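import Pool.Agent.Work.MP_7112d2_mp.Example

set_option autoImplicit false

namespace Pool.Agent.Work.MP_7112d2_mp

open Matrix
open scoped Kronecker ComplexOrder MatrixOrder

/-- the semi-norm of a real diagonal matrix at a real diagonal point -/
theorem riemSq_dg_dg {n : ℕ} {κ : ℝ → ℝ} (hκ : κ 1 = 1) (q r : Fin n → ℝ) :
    riemSq κ (dg q) (dg r) = ∑ j, (q j)⁻¹ * (r j) ^ 2 := by
  rw [riemSq_dg]
  refine Finset.sum_congr rfl fun j _ => ?_
  rw [Finset.sum_eq_single j]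
  · by_cases hq : q j = 0
    · simp [hq]
    · rw [inv_mul_cancel₀ hq, hκ]
      simp only [dg, diagonal_apply_eq, Complex.normSq_ofReal]
      ring
  · intro i _ hij
    simp [dg, hij]
  · simp

/-- the semi-norm for `κ(x) = 2/(1+x)` of a real symmetric matrix at a positive definite real
symmetric matrix of size two -/
theorem riemSq_sy {κ : ℝ → ℝ} (hκ : ∀ x : ℝ, 0 < x → κ x = 2 / (1 + x)) {u w y z : ℝ}
    (h1 : u < 1) (hΔ : 0 < u * (1 - u) - w ^ 2) :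
    riemSq κ (sy (1 - u) w u) (sy (-y) z y) =
      4 * (y ^ 2 + z ^ 2) + (2 * w * z - y * (1 - 2 * u)) ^ 2 / (u * (1 - u) - w ^ 2) := by
  have hσ : (sy (1 - u) w u).PosDef := sy_posDef (by linarith) (by linarith)
  set Δ := u * (1 - u) - w ^ 2 with hΔdef
  set k := 2 * w * z - y * (1 - 2 * u) with hk
  set g0 := -k / (2 * Δ) with hg0
  have hk' : k = -2 * g0 * Δ := by
    rw [hg0]
    field_simp
  set gz := -2 * y - g0 * (1 - 2 * u) with hgz
  set gx := 2 * z - 2 * g0 * w with hgx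
  have hG : (sy (1 - u) w u) * (sy (g0 + gz) gx (g0 - gz)) +
      (sy (g0 + gz) gx (g0 - gz)) * (sy (1 - u) w u) = (2 : ℝ) • sy (-y) z y := by
    have hk2 : (2 * w * z - y * (1 - 2 * u)) = -2 * g0 * (u * (1 - u) - w ^ 2) := hk'
    ext i j
    have h00 : (1 - u) * (g0 + gz) + w * gx + ((g0 + gz) * (1 - u) + gx * w) = 2 * (-y) := by
      rw [hgz, hgx]; linear_combination 2 * hk2
    have h01 : (1 - u) * gx + w * (g0 - gz) + ((g0 + gz) * w + gx * u) = 2 * z := by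
      rw [hgz, hgx]; ring
    have h10 : w * (g0 + gz) + u * gx + (gx * (1 - u) + (g0 - gz) * w) = 2 * z := by
      rw [hgz, hgx]; ring
    have h11 : w * gx + u * (g0 - gz) + (gx * w + (g0 - gz) * u) = 2 * y := by
      rw [hgz, hgx]; linear_combination 2 * hk2
    fin_cases i <;> fin_cases j <;>
      simp only [sy, Fin.zero_eta, Fin.mk_one, Fin.isValue, Matrix.add_apply, Matrix.mul_apply,
        Fin.sum_univ_two, Matrix.smul_apply, Matrix.of_apply, Matrix.cons_val', Matrix.cons_val_zero,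
        Matrix.cons_val_one, Matrix.cons_val_fin_one, Complex.real_smul] <;>
      norm_cast
  rw [riemSq_sld hκ hσ hG]
  have e : (star (vec (sy (-y) z y)) ⬝ᵥ vec (sy (g0 + gz) gx (g0 - gz))).re =
      -y * (g0 + gz) + z * gx + (z * gx + y * (g0 - gz)) := by
    rw [dotProduct, Fintype.sum_prod_type]
    simp only [sy, Fin.sum_univ_two, Pi.star_apply, vec, Matrix.of_apply, Matrix.cons_val',
      Matrix.cons_val_zero, Matrix.cons_val_one, Matrix.cons_val_fin_one, Fin.isValue,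
      Complex.star_def, Complex.conj_ofReal]
    norm_cast
  rw [e]
  have hΔ0 : Δ ≠ 0 := hΔ.ne'
  have h3 : k ^ 2 / Δ = -2 * g0 * k := by
    rw [hg0]
    field_simp
  rw [h3, hgz, hgx, hk]
  ring

/-- `κ₀(x) = 2/(1+x)` -/
noncomputable def kap (x : ℝ) : ℝ := 2 / (1 + x)

/-- the elementary estimate -/
theorem elem {u w y z : ℝ} (hu0 : 0 < u) (hu1 : u ≤ 1 / 2) (hw : |w| ≤ u / 2) :
    4 * (y ^ 2 + z ^ 2) + (2 * w * z - y * (1 - 2 * u)) ^ 2 / (u * (1 - u) - w ^ 2) ≤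
      22 / 3 * (u⁻¹ * y ^ 2 + (((1 - u + w) / 2)⁻¹ * ((-y + z) / 2) ^ 2 +
        ((1 - u - w) / 2)⁻¹ * ((-y - z) / 2) ^ 2)) := by
  have hw2 : w ^ 2 ≤ u ^ 2 / 4 := by
    have := abs_le.1 hw
    nlinarith [this.1, this.2]
  have hwl := (abs_le.1 hw).1
  have hwr := (abs_le.1 hw).2
  have hΔ : 3 / 8 * u ≤ u * (1 - u) - w ^ 2 := by nlinarith
  have hΔ0 : 0 < u * (1 - u) - w ^ 2 := by nlinarith
  have hnum : (2 * w * z - y * (1 - 2 * u)) ^ 2 ≤ 2 * u ^ 2 * z ^ 2 + 2 * y ^ 2 := by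
    have h1 : (2 * w * z - y * (1 - 2 * u)) ^ 2 ≤ 2 * (2 * w * z) ^ 2 + 2 * (y * (1 - 2 * u)) ^ 2 := by
      nlinarith [sq_nonneg (2 * w * z + y * (1 - 2 * u))]
    have h2 : (2 * w * z) ^ 2 ≤ u ^ 2 * z ^ 2 := by nlinarith [sq_nonneg z]
    have h3 : (y * (1 - 2 * u)) ^ 2 ≤ y ^ 2 := by
      have : (1 - 2 * u) ^ 2 ≤ 1 := by nlinarith
      nlinarith [sq_nonneg y]
    linarith
  have hdiv : (2 * w * z - y * (1 - 2 * u)) ^ 2 / (u * (1 - u) - w ^ 2) ≤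
      8 / 3 * z ^ 2 + 16 / 3 * (u⁻¹ * y ^ 2) := by
    rw [div_le_iff₀ hΔ0]
    have h4 : (8 / 3 * z ^ 2 + 16 / 3 * (u⁻¹ * y ^ 2)) * (3 / 8 * u) = u * z ^ 2 + 2 * y ^ 2 := by
      field_simp
      ring
    have h5 : 0 ≤ 8 / 3 * z ^ 2 + 16 / 3 * (u⁻¹ * y ^ 2) := by positivity
    have h6 := mul_le_mul_of_nonneg_left hΔ h5
    have h7 : 2 * u ^ 2 * z ^ 2 ≤ u * z ^ 2 := by
      nlinarith [sq_nonneg z, mul_nonneg (mul_nonneg hu0.le (sq_nonneg z)) (by linarith : 0 ≤ 1 - 2 * u)]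
    linarith
  have hyu : 2 * y ^ 2 ≤ u⁻¹ * y ^ 2 := by
    have h8 : 2 ≤ u⁻¹ := by
      rw [le_inv_comm₀ (by norm_num) hu0]
      linarith
    nlinarith [sq_nonneg y]
  have hA : 2 * ((-y + z) / 2) ^ 2 ≤ ((1 - u + w) / 2)⁻¹ * ((-y + z) / 2) ^ 2 := by
    have h9 : 2 ≤ ((1 - u + w) / 2)⁻¹ := by
      rw [le_inv_comm₀ (by norm_num) (by linarith)]
      linarith
    nlinarith [sq_nonneg ((-y + z) / 2)]
  have hB : 2 * ((-y - z) / 2) ^ 2 ≤ ((1 - u - w) / 2)⁻¹ * ((-y - z) / 2) ^ 2 := by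
    have h9 : 2 ≤ ((1 - u - w) / 2)⁻¹ := by
      rw [le_inv_comm₀ (by norm_num) (by linarith)]
      linarith
    nlinarith [sq_nonneg ((-y - z) / 2)]
  have hAB : y ^ 2 + z ^ 2 = 2 * ((-y + z) / 2) ^ 2 + 2 * ((-y - z) / 2) ^ 2 := by ring
  nlinarith [sq_nonneg y, sq_nonneg z]

theorem riem_bound {κ : ℝ → ℝ} (hκ : κ 1 = 1) {ρ X : Mat 3} (hρ : IsState ρ) (hX : X.IsHermitian)
    (hX0 : X.trace = 0) :
    riemSq kap (mp outM ρ) (mp outM X) ≤ 22 / 3 * riemSq κ (mp outN ρ) (mp outN X) := by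
  obtain ⟨hMρ, hNρ, h0⟩ := vals hρ.1.1 (s := 1) (by rw [hρ.2]; simp)
  obtain ⟨hMX, hNX, -⟩ := vals hX (s := 0) (by rw [hX0]; simp)
  have hdiag : ∀ i, 0 ≤ (ρ i i).re := by
    intro i
    have := hρ.1.diag_nonneg (i := i)
    exact (Complex.le_def.1 this).1
  have p0 := hdiag 0
  have p1 := hdiag 1
  have p2 := hdiag 2
  rw [hMρ, hNρ, hMX, hNX]
  set u := ((ρ 1 1).re + (ρ 2 2).re) / 2 with hu
  set w := ((ρ 1 1).re - (ρ 2 2).re) / 4 with hw
  set y := ((X 1 1).re + (X 2 2).re) / 2 with hy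
  set z := ((X 1 1).re - (X 2 2).re) / 4 with hz
  have hu1 : u ≤ 1 / 2 := by rw [hu]; linarith
  have hwu : |w| ≤ u / 2 := by
    rw [abs_le, hu, hw]
    constructor <;> linarith
  rw [riemSq_dg_dg hκ]
  have hu0 : 0 ≤ u := by rw [hu]; linarith
  simp only [Fin.sum_univ_three, Matrix.cons_val_zero, Matrix.cons_val_one, Matrix.cons_val]
  rw [zero_sub]
  rcases hu0.eq_or_lt with hu00 | hu00
  · have hw0 : w = 0 := by
      have := abs_nonneg w
      have h1 : |w| = 0 := by linarith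
      exact abs_eq_zero.1 h1
    rw [← hu00, hw0]
    have e1 : sy (1 - 0) 0 0 = dg ![1, 0] := by
      ext i j
      fin_cases i <;> fin_cases j <;> simp [sy, dg]
    rw [e1, riemSq_dg]
    simp only [Fin.sum_univ_two, Matrix.cons_val_zero, Matrix.cons_val_one]
    simp [sy, kap, Complex.normSq_ofReal]
    nlinarith [sq_nonneg y, sq_nonneg z]
  · rw [riemSq_sy (κ := kap) (fun x _ => rfl) (by linarith)
      (by nlinarith [(abs_le.1 hwu).1, (abs_le.1 hwu).2])]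
    have := elem (y := y) (z := z) hu00 hu1 hwu
    linarith

end Pool.Agent.Work.MP_7112d2_mp
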