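import Pool.Agent.Work.MP_7112d2_mp.Func

set_option autoImplicit false

namespace Pool.Agent.Work.MP_7112d2_mp

open Matrix
open scoped Kronecker ComplexOrder

variable {n : Type*} [Fintype n] [DecidableEq n]

omit [Fintype n] [DecidableEq n] in
theorem isHermitian_rsmul {A : Matrix n n ℂ} (hA : A.IsHermitian) (t : ℝ) :
    (t • A).IsHermitian := by
  have hA' : IsSelfAdjoint A := hA
  exact (IsSelfAdjoint.smul (by simp [IsSelfAdjoint]) hA' : IsSelfAdjoint (t • A))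

omit [Fintype n] [DecidableEq n] in
theorem posSemidef_rsmul {A : Matrix n n ℂ} (hA : A.PosSemidef) {t : ℝ} (ht : 0 ≤ t) :
    (t • A).PosSemidef := hA.smul ht

omit [Fintype n] [DecidableEq n] in
theorem posDef_comb {A B : Matrix n n ℂ} (hA : A.PosDef) (hB : B.PosDef) {t : ℝ}
    (h0 : 0 ≤ t) (h1 : t ≤ 1) : (t • A + (1 - t) • B).PosDef := by
  rcases h0.eq_or_lt with h | h
  · subst h; simpa using hB
  · exact (hA.smul h).add_posSemidef (posSemidef_rsmul hB.posSemidef (by linarith))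

theorem opConvex_sq : OperatorConvex (fun x : ℝ => (x - 1) ^ 2) := by
  intro n A B hA hB t h0 h1
  rw [cfc_sq hA.1, cfc_sq hB.1, cfc_sq (posDef_comb hA hB h0 h1).1]
  have e : t • (A - 1) ^ 2 + (1 - t) • (B - 1) ^ 2 - (t • A + (1 - t) • B - 1) ^ 2
      = (t * (1 - t)) • ((A - B)ᴴ * (A - B)) := by
    have hH : (A - B)ᴴ = A - B := by
      rw [conjTranspose_sub, hA.1, hB.1]
    rw [hH]
    have e1 : t • A + (1 - t) • B - 1 = t • (A - 1) + (1 - t) • (B - 1) := by module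
    have e2 : A - B = (A - 1) - (B - 1) := by abel
    rw [e1, e2]
    generalize A - 1 = a
    generalize B - 1 = b
    simp only [sq, add_mul, mul_add, smul_mul_assoc, mul_smul_comm, sub_mul, mul_sub, smul_smul]
    module
  rw [e]
  exact posSemidef_rsmul (posSemidef_conjTranspose_mul_self _) (mul_nonneg h0 (by linarith))

theorem inv_convex {A B : Matrix n n ℂ} (hA : A.PosDef) (hB : B.PosDef) {t : ℝ}
    (h0 : 0 ≤ t) (h1 : t ≤ 1) :
    (t • A⁻¹ + (1 - t) • B⁻¹ - (t • A + (1 - t) • B)⁻¹).PosSemidef := by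
  have hC := posDef_comb hA hB h0 h1
  set C := t • A + (1 - t) • B with hCdef
  have hAu : IsUnit A.det := (Matrix.isUnit_iff_isUnit_det A).1 hA.isUnit
  have hBu : IsUnit B.det := (Matrix.isUnit_iff_isUnit_det B).1 hB.isUnit
  have hCu : IsUnit C.det := (Matrix.isUnit_iff_isUnit_det C).1 hC.isUnit
  have expand : ∀ X : Matrix n n ℂ, X.PosDef → IsUnit X.det →
      (X⁻¹ - C⁻¹)ᴴ * X * (X⁻¹ - C⁻¹) = X⁻¹ - C⁻¹ - C⁻¹ + C⁻¹ * X * C⁻¹ := by
    intro X hX hXu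
    have hH : (X⁻¹ - C⁻¹)ᴴ = X⁻¹ - C⁻¹ := by
      rw [conjTranspose_sub, hX.1.inv, hC.1.inv]
    rw [hH, sub_mul, sub_mul, mul_sub, mul_sub, nonsing_inv_mul X hXu, one_mul, one_mul,
      mul_assoc C⁻¹ X X⁻¹, mul_nonsing_inv X hXu, mul_one]
    abel
  have key : t • A⁻¹ + (1 - t) • B⁻¹ - C⁻¹
      = t • ((A⁻¹ - C⁻¹)ᴴ * A * (A⁻¹ - C⁻¹)) + (1 - t) • ((B⁻¹ - C⁻¹)ᴴ * B * (B⁻¹ - C⁻¹)) := by
    rw [expand A hA hAu, expand B hB hBu]
    have h3 : t • (C⁻¹ * A * C⁻¹) + (1 - t) • (C⁻¹ * B * C⁻¹) = C⁻¹ := by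
      have : C⁻¹ * C * C⁻¹ = t • (C⁻¹ * A * C⁻¹) + (1 - t) • (C⁻¹ * B * C⁻¹) := by
        conv_lhs => rw [show C⁻¹ * C = C⁻¹ * (t • A + (1 - t) • B) from by rw [hCdef]]
        simp only [mul_add, add_mul, mul_smul_comm, smul_mul_assoc]
      rw [← this, nonsing_inv_mul C hCu, one_mul]
    calc t • A⁻¹ + (1 - t) • B⁻¹ - C⁻¹
        = t • (A⁻¹ - C⁻¹ - C⁻¹) + (1 - t) • (B⁻¹ - C⁻¹ - C⁻¹) + C⁻¹ := by module
      _ = t • (A⁻¹ - C⁻¹ - C⁻¹) + (1 - t) • (B⁻¹ - C⁻¹ - C⁻¹)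
            + (t • (C⁻¹ * A * C⁻¹) + (1 - t) • (C⁻¹ * B * C⁻¹)) := by rw [h3]
      _ = _ := by module
  rw [key]
  exact (posSemidef_rsmul (hA.posSemidef.conjTranspose_mul_mul_same _) h0).add
    (posSemidef_rsmul (hB.posSemidef.conjTranspose_mul_mul_same _) (by linarith))

theorem cfc_kappa {A : Matrix n n ℂ} (hA : A.PosDef) {κ : ℝ → ℝ}
    (hκ : ∀ x : ℝ, 0 < x → κ x = 2 / (1 + x)) :
    cfc κ A = (2 : ℝ) • (1 + A)⁻¹ := by
  have h1 : (1 + A).PosDef := PosDef.one.add_posSemidef hA.posSemidef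
  have hu : IsUnit (1 + A).det := (Matrix.isUnit_iff_isUnit_det _).1 h1.isUnit
  have h2 := cfc_kappa_mul hA hκ
  calc cfc κ A = cfc κ A * (1 + A) * (1 + A)⁻¹ := by
        rw [mul_assoc, mul_nonsing_inv _ hu, mul_one]
    _ = _ := by rw [h2, smul_mul_assoc, one_mul]

theorem opConvex_kappa {κ : ℝ → ℝ} (hκ : ∀ x : ℝ, 0 < x → κ x = 2 / (1 + x)) :
    OperatorConvex κ := by
  intro n A B hA hB t h0 h1
  rw [cfc_kappa hA hκ, cfc_kappa hB hκ, cfc_kappa (posDef_comb hA hB h0 h1) hκ]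
  have h := inv_convex (PosDef.one.add_posSemidef hA.posSemidef)
    (PosDef.one.add_posSemidef hB.posSemidef) h0 h1
  have e1 : t • (1 + A) + (1 - t) • (1 + B) = 1 + (t • A + (1 - t) • B) := by module
  rw [e1] at h
  have h2 := posSemidef_rsmul h (t := 2) (by norm_num)
  convert h2 using 1
  module

end Pool.Agent.Work.MP_7112d2_mp
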