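import Mathlib

set_option autoImplicit false

namespace Pool.Agent.Work.MP_7112d2_mp

open Matrix
open scoped Kronecker ComplexOrder

/-- Operators on `ℂ^n`, as complex matrices. -/
abbrev Mat (n : ℕ) : Type := Matrix (Fin n) (Fin n) ℂ

/-- Density operators on `ℂ^n`: positive semidefinite with trace one. -/
def IsState {n : ℕ} (ρ : Mat n) : Prop := ρ.PosSemidef ∧ ρ.trace = 1

/-- Equal supports; the support of a self-adjoint operator is its range. -/
def SameSupp {n : ℕ} (ρ γ : Mat n) : Prop :=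
  LinearMap.range (Matrix.toLin' ρ) = LinearMap.range (Matrix.toLin' γ)

/-- The ampliation `id_k ⊗ Φ` of a linear map `Φ`. -/
def ampl {a b : ℕ} (k : ℕ) (Φ : Mat a →ₗ[ℂ] Mat b)
    (X : Matrix (Fin k × Fin a) (Fin k × Fin a) ℂ) :
    Matrix (Fin k × Fin b) (Fin k × Fin b) ℂ :=
  Matrix.of fun p q => Φ (Matrix.of fun i j => X (p.1, i) (q.1, j)) p.2 q.2

/-- A channel: a completely positive trace-preserving linear map. -/
structure IsChannel {a b : ℕ} (Φ : Mat a →ₗ[ℂ] Mat b) : Prop where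
  cp : ∀ (k : ℕ) (X : Matrix (Fin k × Fin a) (Fin k × Fin a) ℂ),
    X.PosSemidef → (ampl k Φ X).PosSemidef
  tp : ∀ X : Mat a, (Φ X).trace = X.trace

/-- Operator convexity on `(0, ∞)`: convexity, in the Loewner order, of `A ↦ f(A)` on the
positive definite matrices of every size. -/
def OperatorConvex (f : ℝ → ℝ) : Prop :=
  ∀ (n : ℕ) (A B : Mat n), A.PosDef → B.PosDef → ∀ t : ℝ, 0 ≤ t → t ≤ 1 →
    (t • cfc f A + (1 - t) • cfc f B - cfc f (t • A + (1 - t) • B)).PosSemidef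

/-- The class `F`: operator convex `f` on `(0, ∞)` with `f(1) = 0` and `f''(1) > 0`. -/
structure InF (f : ℝ → ℝ) : Prop where
  convex : OperatorConvex f
  one : f 1 = 0
  second : 0 < deriv (deriv f) 1

/-- The class `K`: operator convex `κ` on `(0, ∞)` with `x κ(x) = κ(1/x)` and `κ(1) = 1`. -/
structure InK (κ : ℝ → ℝ) : Prop where
  convex : OperatorConvex κ
  symm : ∀ x : ℝ, 0 < x → x * κ x = κ (1 / x)
  one : κ 1 = 1

/-- The generalised inverse of a positive semidefinite matrix (inverse on the support, zero on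
its complement), by functional calculus with `x ↦ x⁻¹`, `0⁻¹ = 0`. -/
noncomputable def ginv {n : ℕ} (σ : Mat n) : Mat n := cfc (fun x : ℝ => x⁻¹) σ

/-- The square root of a positive semidefinite matrix. -/
noncomputable def msqrt {n : ℕ} (σ : Mat n) : Mat n := cfc Real.sqrt σ

/-- The operator `L_A R_B : X ↦ A X B` on the Hilbert–Schmidt space, as a matrix acting on
vectorised matrices; see `LR_mulVec_vec`. -/
def LR {n : ℕ} (A B : Mat n) : Matrix (Fin n × Fin n) (Fin n × Fin n) ℂ := Bᵀ ⊗ₖ A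

/-- `LR A B` is indeed the operator `X ↦ A X B`. -/
theorem LR_mulVec_vec {n : ℕ} (A B X : Mat n) : LR A B *ᵥ vec X = vec (A * X * B) := by
  unfold LR
  rw [kronecker_mulVec_vec, transpose_transpose]

/-- The standard `f`-divergence `⟨γ^{1/2}, f(L_ρ R_γ^{-1}) (γ^{1/2})⟩`. -/
noncomputable def stdDiv {n : ℕ} (f : ℝ → ℝ) (ρ γ : Mat n) : ℝ :=
  (star (vec (msqrt γ)) ⬝ᵥ (cfc f (LR ρ (ginv γ)) *ᵥ vec (msqrt γ))).re

/-- The Riemannian semi-norm squared `⟨Y, κ(L_σ R_σ^{-1}) R_σ^{-1} (Y)⟩`. -/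
noncomputable def riemSq {n : ℕ} (κ : ℝ → ℝ) (σ Y : Mat n) : ℝ :=
  (star (vec Y) ⬝ᵥ (cfc κ (LR σ (ginv σ)) *ᵥ vec (Y * ginv σ))).re

/-- The relative expansion coefficient of the standard `f`-divergence. -/
noncomputable def etaStd {a b b' : ℕ} (f : ℝ → ℝ) (N : Mat a →ₗ[ℂ] Mat b)
    (M : Mat a →ₗ[ℂ] Mat b') : EReal :=
  sInf {r : EReal | ∃ ρ γ : Mat a, IsState ρ ∧ IsState γ ∧ ρ ≠ γ ∧ SameSupp ρ γ ∧
    stdDiv f (M ρ) (M γ) ≠ 0 ∧
    r = ((stdDiv f (N ρ) (N γ) / stdDiv f (M ρ) (M γ) : ℝ) : EReal)}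

/-- The Riemannian relative expansion coefficient. -/
noncomputable def etaRiem {a b b' : ℕ} (κ : ℝ → ℝ) (N : Mat a →ₗ[ℂ] Mat b)
    (M : Mat a →ₗ[ℂ] Mat b') : EReal :=
  sInf {r : EReal | ∃ ρ X : Mat a, IsState ρ ∧ X.IsHermitian ∧ X.trace = 0 ∧
    riemSq κ (M ρ) (M X) ≠ 0 ∧
    r = ((riemSq κ (N ρ) (N X) / riemSq κ (M ρ) (M X) : ℝ) : EReal)}

end Pool.Agent.Work.MP_7112d2_mp
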