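import Pool.Agent.Work.MP_7112d2_mp.Riem

set_option autoImplicit false

namespace Pool.Agent.Work.MP_7112d2_mp

open Matrix
open scoped Kronecker ComplexOrder MatrixOrder

variable {n : ℕ}

/-- a real diagonal matrix -/
noncomputable def dg (q : Fin n → ℝ) : Mat n := diagonal fun i => (q i : ℂ)

theorem ginv_dg (q : Fin n → ℝ) : ginv (dg q) = dg fun i => (q i)⁻¹ := by
  unfold ginv dg
  rw [cfc_diag]

theorem msqrt_dg (q : Fin n → ℝ) : msqrt (dg q) = dg fun i => Real.sqrt (q i) := by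
  unfold msqrt dg
  rw [cfc_diag]

theorem LR_dg (p q : Fin n → ℝ) :
    LR (dg p) (dg q) = diagonal fun i : Fin n × Fin n => ((q i.1 * p i.2 : ℝ) : ℂ) := by
  unfold LR dg
  rw [diagonal_transpose, diagonal_kronecker_diagonal]
  congr 1
  ext i
  push_cast
  rfl

/-- the Riemannian semi-norm at a real diagonal point -/
theorem riemSq_dg (κ : ℝ → ℝ) (q : Fin n → ℝ) (Y : Mat n) :
    riemSq κ (dg q) Y = ∑ j, ∑ i, κ ((q j)⁻¹ * q i) * (q j)⁻¹ * Complex.normSq (Y i j) := by
  unfold riemSq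
  rw [ginv_dg, LR_dg, cfc_diag]
  rw [dotProduct, Fintype.sum_prod_type, Complex.re_sum]
  refine Finset.sum_congr rfl fun j _ => ?_
  rw [Complex.re_sum]
  refine Finset.sum_congr rfl fun i _ => ?_
  rw [mulVec_diagonal]
  simp only [Pi.star_apply, vec, dg, mul_diagonal]
  have h := Complex.normSq_eq_conj_mul_self (z := Y i j)
  have e : star (Y i j) * (((κ ((q j)⁻¹ * q i) : ℝ) : ℂ) * (Y i j * (((q j)⁻¹ : ℝ) : ℂ)))
      = ((κ ((q j)⁻¹ * q i) * (q j)⁻¹ * Complex.normSq (Y i j) : ℝ) : ℂ) := by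
    push_cast
    rw [h]
    show (starRingEnd ℂ) (Y i j) * _ = _
    ring
  rw [e, Complex.ofReal_re]

/-- a measure-and-prepare map -/
noncomputable def mp {a b : ℕ} (τ : Fin a → Mat b) : Mat a →ₗ[ℂ] Mat b where
  toFun X := ∑ i, X i i • τ i
  map_add' X Y := by
    simp only [Matrix.add_apply, add_smul, Finset.sum_add_distrib]
  map_smul' c X := by
    simp only [Matrix.smul_apply, smul_eq_mul, mul_smul, Finset.smul_sum, RingHom.id_apply]

theorem mp_apply {a b : ℕ} (τ : Fin a → Mat b) (X : Mat a) : mp τ X = ∑ i, X i i • τ i := rfl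

theorem mp_isChannel {a b : ℕ} {τ : Fin a → Mat b} (hp : ∀ i, (τ i).PosSemidef)
    (ht : ∀ i, (τ i).trace = 1) : IsChannel (mp τ) := by
  constructor
  · intro k X hX
    have e : ampl k (mp τ) X = ∑ i, (X.submatrix (fun p : Fin k => (p, i)) fun p => (p, i)) ⊗ₖ τ i := by
      ext ⟨p, r⟩ ⟨q, s⟩
      simp only [ampl, of_apply, mp_apply, Matrix.sum_apply, Matrix.smul_apply, smul_eq_mul, kroneckerMap_apply,
        submatrix_apply]
    rw [e]
    exact posSemidef_sum _ fun i _ => (hX.submatrix _).kronecker (hp i)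
  · intro X
    rw [mp_apply, trace_sum]
    simp only [trace_smul, ht, smul_eq_mul, mul_one]
    rfl

end Pool.Agent.Work.MP_7112d2_mp
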