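import Pool.Agent.Work.MP_7112d2_mp.Std

set_option autoImplicit false

namespace Pool.Agent.Work.MP_7112d2_mp

open Matrix
open scoped Kronecker ComplexOrder MatrixOrder

/-- a real symmetric two by two matrix -/
noncomputable def sy (a b d : ℝ) : Mat 2 := !![(a : ℂ), (b : ℂ); (b : ℂ), (d : ℂ)]

theorem sy_posDef {a b d : ℝ} (ha : 0 < a) (hd : 0 < a * d - b ^ 2) : (sy a b d).PosDef := by
  have hD : (diagonal ![(a : ℂ), (((a * d - b ^ 2) / a : ℝ) : ℂ)]).PosDef := by
    rw [posDef_diagonal_iff]
    intro i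
    fin_cases i
    · simpa using ha
    · have : 0 < (a * d - b ^ 2) / a := div_pos hd ha
      show (0 : ℂ) < (((a * d - b ^ 2) / a : ℝ) : ℂ)
      exact_mod_cast this
  have hinj : Function.Injective (!![(1 : ℂ), (((b / a : ℝ)) : ℂ); 0, 1] : Mat 2).mulVec := by
    apply Matrix.mulVec_injective_of_isUnit
    rw [Matrix.isUnit_iff_isUnit_det, det_fin_two_of]
    simp
  have h := hD.conjTranspose_mul_mul_same hinj
  convert h using 1
  have ha' : (a : ℂ) ≠ 0 := by exact_mod_cast ha.ne'
  ext i j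
  fin_cases i <;> fin_cases j <;>
    simp [sy, Matrix.mul_apply, Fin.sum_univ_two, conjTranspose_apply, diagonal] <;>
    field_simp <;> ring

theorem sy_posSemidef {a b d : ℝ} (ha : 0 < a) (hd : 0 < a * d - b ^ 2) :
    (sy a b d).PosSemidef := (sy_posDef ha hd).posSemidef

theorem dg_posSemidef {n : ℕ} {q : Fin n → ℝ} (hq : ∀ i, 0 ≤ q i) : (dg q).PosSemidef := by
  unfold dg
  rw [posSemidef_diagonal_iff]
  intro i
  exact_mod_cast hq i

theorem dg_posDef {n : ℕ} {q : Fin n → ℝ} (hq : ∀ i, 0 < q i) : (dg q).PosDef := by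
  unfold dg
  rw [posDef_diagonal_iff]
  intro i
  exact_mod_cast hq i

/-- the output states of the first channel -/
noncomputable def outM : Fin 3 → Mat 2 := ![dg ![1, 0], sy (1 / 2) (1 / 4) (1 / 2), sy (1 / 2) (-1 / 4) (1 / 2)]

/-- the output states of the second channel -/
noncomputable def outN : Fin 3 → Mat 3 :=
  ![dg ![0, 1 / 2, 1 / 2], dg ![1 / 2, 3 / 8, 1 / 8], dg ![1 / 2, 1 / 8, 3 / 8]]

theorem chM : IsChannel (mp outM) := by
  apply mp_isChannel
  · intro i
    fin_cases i
    · exact dg_posSemidef fun i => by fin_cases i <;> simp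
    · exact sy_posSemidef (by norm_num) (by norm_num)
    · exact sy_posSemidef (by norm_num) (by norm_num)
  · intro i
    fin_cases i <;> simp [outM, dg, sy, trace, Fin.sum_univ_two] <;> norm_num

theorem chN : IsChannel (mp outN) := by
  apply mp_isChannel
  · intro i
    fin_cases i <;> exact dg_posSemidef fun i => by fin_cases i <;> simp <;> norm_num
  · intro i
    fin_cases i <;> simp [outN, dg, trace, Fin.sum_univ_three] <;> norm_num

/-- values of the two maps on Hermitian matrices -/
theorem vals {X : Mat 3} (hX : X.IsHermitian) {s : ℝ} (hs : X.trace = s) :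
    mp outM X = sy (s - ((X 1 1).re + (X 2 2).re) / 2) (((X 1 1).re - (X 2 2).re) / 4)
      (((X 1 1).re + (X 2 2).re) / 2) ∧
    mp outN X = dg ![((X 1 1).re + (X 2 2).re) / 2,
      (s - ((X 1 1).re + (X 2 2).re) / 2 + ((X 1 1).re - (X 2 2).re) / 4) / 2,
      (s - ((X 1 1).re + (X 2 2).re) / 2 - ((X 1 1).re - (X 2 2).re) / 4) / 2] ∧
    (X 0 0).re = s - (X 1 1).re - (X 2 2).re := by
  have hd : ∀ i, X i i = ((X i i).re : ℂ) := by
    intro i
    have h1 : star (X i i) = X i i := hX.apply i i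
    exact (Complex.conj_eq_iff_re.1 h1).symm
  have hsum : (X 0 0).re + (X 1 1).re + (X 2 2).re = s := by
    have h1 := congrArg Complex.re hs
    simpa [trace, Fin.sum_univ_three] using h1
  have h0 : (X 0 0).re = s - (X 1 1).re - (X 2 2).re := by linarith
  refine ⟨?_, ?_, h0⟩
  · rw [mp_apply, Fin.sum_univ_three, hd 0, hd 1, hd 2, h0]
    generalize (X 1 1).re = a
    generalize (X 2 2).re = b
    ext i j
    fin_cases i <;> fin_cases j <;> simp [outM, sy, dg] <;> ring
  · rw [mp_apply, Fin.sum_univ_three, hd 0, hd 1, hd 2, h0]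
    generalize (X 1 1).re = a
    generalize (X 2 2).re = b
    ext i j
    fin_cases i <;> fin_cases j <;> simp [outN, dg] <;> ring

end Pool.Agent.Work.MP_7112d2_mp
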