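import Pool.Agent.Work.MP_7112d2_mp.Bound

set_option autoImplicit false

namespace Pool.Agent.Work.MP_7112d2_mp

open Matrix Filter Topology
open scoped Kronecker ComplexOrder MatrixOrder

/-- operator convexity implies convexity -/
theorem scalar_convex {κ : ℝ → ℝ} (h : OperatorConvex κ) {a b t : ℝ} (ha : 0 < a) (hb : 0 < b)
    (h0 : 0 ≤ t) (h1 : t ≤ 1) : κ (t * a + (1 - t) * b) ≤ t * κ a + (1 - t) * κ b := by
  have hA : (dg (n := 1) fun _ => a).PosDef := dg_posDef fun _ => ha
  have hB : (dg (n := 1) fun _ => b).PosDef := dg_posDef fun _ => hb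
  have h2 := h 1 _ _ hA hB t h0 h1
  have e : t • dg (n := 1) (fun _ => a) + (1 - t) • dg (n := 1) (fun _ => b) =
      dg (n := 1) fun _ => t * a + (1 - t) * b := by
    ext i j
    fin_cases i
    fin_cases j
    simp [dg]
  rw [e] at h2
  unfold dg at h2
  rw [cfc_diag, cfc_diag, cfc_diag] at h2
  have h3 := h2.diag_nonneg (i := 0)
  have h4 := (Complex.le_def.1 h3).1
  simp at h4
  linarith

/-- a convex function bounded by the larger of the end values -/
theorem scalar_max {κ : ℝ → ℝ} (h : OperatorConvex κ) {a b x : ℝ} (ha : 0 < a) (hax : a ≤ x)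
    (hxb : x ≤ b) : κ x ≤ max (κ a) (κ b) := by
  rcases hax.eq_or_lt with rfl | hax'
  · exact le_max_left _ _
  have hab : a < b := lt_of_lt_of_le hax' hxb
  have hd : 0 < b - a := by linarith
  have e : x = (b - x) / (b - a) * a + (1 - (b - x) / (b - a)) * b := by
    field_simp
    ring
  have t0 : 0 ≤ (b - x) / (b - a) := div_nonneg (by linarith) hd.le
  have t1 : (b - x) / (b - a) ≤ 1 := by
    rw [div_le_one hd]; linarith
  have h1 := scalar_convex h ha (ha.trans hab) t0 t1
  rw [← e] at h1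
  have h2 := le_max_left (κ a) (κ b)
  have h3 := le_max_right (κ a) (κ b)
  nlinarith

/-- functions in `K` are nonnegative -/
theorem K_nonneg {κ : ℝ → ℝ} (h : InK κ) {x : ℝ} (hx : 0 < x) : 0 ≤ κ x := by
  by_contra hneg
  rw [not_le] at hneg
  have h1 := h.symm x hx
  have h2 : κ (1 / x) < 0 := by
    rw [← h1]
    exact mul_neg_of_pos_of_neg hx hneg
  have hx' : 0 < 1 / x := by positivity
  have h3 : κ 1 < 0 := by
    rcases le_total x 1 with hx1 | hx1
    · have h4 := scalar_max h.convex hx hx1 (by rw [le_div_iff₀ hx]; linarith : 1 ≤ 1 / x)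
      exact lt_of_le_of_lt h4 (max_lt hneg h2)
    · have h4 := scalar_max h.convex hx' (by rw [div_le_iff₀ hx]; linarith : 1 / x ≤ 1) hx1
      exact lt_of_le_of_lt h4 (max_lt h2 hneg)
  rw [h.one] at h3
  linarith

/-- bounded functions in `K` are dominated by a multiple of `2/(1+x)` -/
theorem K_bound {κ : ℝ → ℝ} (h : InK κ) (hb : ∃ L : ℝ, Tendsto κ (𝓝[>] 0) (𝓝 L)) :
    ∃ C : ℝ, 0 < C ∧ ∀ x, 0 ≤ x → κ x ≤ C * kap x := by
  obtain ⟨L, hL⟩ := hb
  set C0 := max (max (L + 1) 1) (κ 0) with hC0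
  have hC1 : 1 ≤ C0 := (le_max_right _ _).trans (le_max_left _ _)
  have hsmall : ∀ x, 0 < x → x ≤ 1 → κ x ≤ C0 := by
    intro x hx hx1
    have h1 : ∀ᶠ e in 𝓝[>] (0 : ℝ), κ e < L + 1 := hL.eventually_lt_const (by linarith)
    have h2 : ∀ᶠ e in 𝓝[>] (0 : ℝ), e ∈ Set.Ioo 0 x := Ioo_mem_nhdsGT hx
    obtain ⟨e, he1, he2⟩ := (h1.and h2).exists
    have h3 := scalar_max h.convex he2.1 he2.2.le hx1
    rw [h.one] at h3
    refine h3.trans (le_trans ?_ (le_max_left _ _))
    exact max_le_max he1.le le_rfl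
  refine ⟨C0, by linarith, ?_⟩
  intro x hx
  unfold kap
  rcases hx.eq_or_lt with rfl | hx0
  · have := le_max_right (max (L + 1) 1) (κ 0)
    norm_num
    linarith
  rcases le_total x 1 with hx1 | hx1
  · have h1 := hsmall x hx0 hx1
    have h2 : 1 ≤ 2 / (1 + x) := by rw [le_div_iff₀ (by linarith)]; linarith
    nlinarith
  · have hxi : 0 < 1 / x := by positivity
    have h1 := hsmall (1 / x) hxi (by rw [div_le_iff₀ hx0]; linarith)
    have h2 := h.symm x hx0
    have h3 : κ x ≤ C0 / x := by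
      rw [le_div_iff₀ hx0]
      linarith
    have h4 : C0 / x ≤ C0 * (2 / (1 + x)) := by
      rw [div_eq_mul_one_div]
      apply mul_le_mul_of_nonneg_left _ (by linarith)
      rw [div_le_div_iff₀ hx0 (by linarith)]
      linarith
    linarith

/-- all Riemannian coefficients with bounded `κ` are positive -/
theorem etaRiem_pos {κ : ℝ → ℝ} (h : InK κ) (hb : ∃ L : ℝ, Tendsto κ (𝓝[>] 0) (𝓝 L))
    (h0 : 0 ≤ κ 0) : 0 < etaRiem κ (mp outN) (mp outM) := by
  obtain ⟨C, hC, hCb⟩ := K_bound h hb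
  have hc : 0 < 1 / (22 / 3 * C) := by positivity
  have hcE : (0 : EReal) < ((1 / (22 / 3 * C) : ℝ) : EReal) := by exact_mod_cast hc
  refine lt_of_lt_of_le hcE ?_
  unfold etaRiem
  apply le_sInf
  rintro r ⟨ρ, X, hρ, hX, hX0, hden, rfl⟩
  have hps : (mp outM ρ).PosSemidef := by
    have := chM.cp 1 (X := ρ.submatrix Prod.snd Prod.snd) (hρ.1.submatrix _)
    have h2 := this.submatrix fun i : Fin 2 => ((0 : Fin 1), i)
    exact h2
  have hk0 : ∀ x, 0 ≤ x → 0 ≤ κ x := by
    intro x hx
    rcases hx.eq_or_lt with rfl | hx'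
    · exact h0
    · exact K_nonneg h hx'
  have h1 : 0 ≤ riemSq κ (mp outM ρ) (mp outM X) := riemSq_nonneg hk0 hps _
  have h1' : 0 < riemSq κ (mp outM ρ) (mp outM X) := lt_of_le_of_ne h1 (Ne.symm hden)
  have h2 : riemSq κ (mp outM ρ) (mp outM X) ≤ C * riemSq kap (mp outM ρ) (mp outM X) := by
    rw [← riemSq_smul C kap hps]
    exact riemSq_mono hCb hps _
  have h3 := riem_bound h.one hρ hX hX0
  rw [EReal.coe_le_coe_iff, le_div_iff₀ h1', div_mul_eq_mul_div, one_mul, div_le_iff₀ (by positivity)]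
  calc riemSq κ (mp outM ρ) (mp outM X) ≤ C * riemSq kap (mp outM ρ) (mp outM X) := h2
    _ ≤ C * (22 / 3 * riemSq κ (mp outN ρ) (mp outN X)) := mul_le_mul_of_nonneg_left h3 hC.le
    _ = _ := by ring

/-- `f(x) = (x-1)²` -/
noncomputable def fsq (x : ℝ) : ℝ := (x - 1) ^ 2

theorem fsq_inF : InF fsq where
  convex := opConvex_sq
  one := by simp [fsq]
  second := by
    have h1 : deriv fsq = fun x => 2 * (x - 1) := by
      ext x
      unfold fsq
      simp
    rw [h1]
    simp

theorem kap_inK : InK kap where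
  convex := opConvex_kappa fun _ _ => rfl
  symm := by
    intro x hx
    unfold kap
    field_simp
    ring
  one := by unfold kap; norm_num

theorem kap_tendsto : Tendsto kap (𝓝[>] 0) (𝓝 (kap 0)) := by
  have : ContinuousAt kap 0 := by
    unfold kap
    apply ContinuousAt.div₀ continuousAt_const (by fun_prop)
    norm_num
  exact this.tendsto.mono_left nhdsWithin_le_nhds

theorem range_top {n : ℕ} {A : Mat n} (hA : A.PosDef) : LinearMap.range (Matrix.toLin' A) = ⊤ := by
  rw [LinearMap.range_eq_top]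
  intro y
  refine ⟨A⁻¹ *ᵥ y, ?_⟩
  have hu : IsUnit A.det := (Matrix.isUnit_iff_isUnit_det _).1 hA.isUnit
  rw [toLin'_apply, mulVec_mulVec, mul_nonsing_inv _ hu, one_mulVec]

theorem dg_state {q : Fin 3 → ℝ} (hq : ∀ i, 0 ≤ q i) (hs : q 0 + q 1 + q 2 = 1) :
    IsState (dg q) := by
  refine ⟨dg_posSemidef hq, ?_⟩
  simp only [dg, trace_diagonal, Fin.sum_univ_three]
  exact_mod_cast hs

theorem etaStd_zero : etaStd fsq (mp outN) (mp outM) = 0 := by
  apply le_antisymm
  · -- the family of pairs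
    have key : ∀ e : ℝ, 0 < e → e < 1 → etaStd fsq (mp outN) (mp outM) ≤ ((e / 2 : ℝ) : EReal) := by
      intro e he he1
      apply sInf_le
      have hq : ∀ i, 0 < (![1 - e, 3 * e / 4, e / 4] : Fin 3 → ℝ) i := by
        intro i
        fin_cases i
        · show 0 < 1 - e; linarith
        · show 0 < 3 * e / 4; linarith
        · show 0 < e / 4; linarith
      have hq' : ∀ i, 0 < (![1 - e, e / 2, e / 2] : Fin 3 → ℝ) i := by
        intro i
        fin_cases i
        · show 0 < 1 - e; linarith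
        · show 0 < e / 2; linarith
        · show 0 < e / 2; linarith
      have hs1 : IsState (dg (![1 - e, 3 * e / 4, e / 4] : Fin 3 → ℝ)) :=
        dg_state (fun i => (hq i).le) (by simp; ring)
      have hs2 : IsState (dg (![1 - e, e / 2, e / 2] : Fin 3 → ℝ)) :=
        dg_state (fun i => (hq' i).le) (by simp; ring)
      obtain ⟨hM1, hN1, -⟩ := vals hs1.1.1 (s := 1) (by rw [hs1.2]; simp)
      obtain ⟨hM2, hN2, -⟩ := vals hs2.1.1 (s := 1) (by rw [hs2.2]; simp)
      have r1 : ((dg (![1 - e, 3 * e / 4, e / 4] : Fin 3 → ℝ)) 1 1).re = 3 * e / 4 := by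
        simp [dg]
      have r2 : ((dg (![1 - e, 3 * e / 4, e / 4] : Fin 3 → ℝ)) 2 2).re = e / 4 := by
        simp [dg]
      have r3 : ((dg (![1 - e, e / 2, e / 2] : Fin 3 → ℝ)) 1 1).re = e / 2 := by
        simp [dg]
      have r4 : ((dg (![1 - e, e / 2, e / 2] : Fin 3 → ℝ)) 2 2).re = e / 2 := by
        simp [dg]
      rw [r1, r2] at hM1 hN1
      rw [r3, r4] at hM2 hN2
      have eM2 : sy (1 - (e / 2 + e / 2) / 2) ((e / 2 - e / 2) / 4) ((e / 2 + e / 2) / 2) =
          dg ![1 - e / 2, e / 2] := by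
        ext i j
        fin_cases i <;> fin_cases j <;> simp [sy, dg]
      rw [eM2] at hM2
      have DM : stdDiv fsq (mp outM (dg ![1 - e, 3 * e / 4, e / 4]))
          (mp outM (dg ![1 - e, e / 2, e / 2])) = (e / 8) ^ 2 / ((e / 2) * (1 - e / 2)) := by
        rw [hM1, hM2]
        have hpos : ∀ i, 0 < (![1 - e / 2, e / 2] : Fin 2 → ℝ) i := by
          intro i
          fin_cases i
          · show 0 < 1 - e / 2; linarith
          · show 0 < e / 2; linarith
        have hH : (sy (1 - (3 * e / 4 + e / 4) / 2) ((3 * e / 4 - e / 4) / 4)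
            ((3 * e / 4 + e / 4) / 2)).IsHermitian := by
          ext i j
          fin_cases i <;> fin_cases j <;> simp [sy, conjTranspose_apply]
        unfold fsq
        rw [stdDiv_sq_dg hH hpos]
        have ed : sy (1 - (3 * e / 4 + e / 4) / 2) ((3 * e / 4 - e / 4) / 4)
            ((3 * e / 4 + e / 4) / 2) - dg ![1 - e / 2, e / 2] = sy 0 (e / 8) 0 := by
          ext i j
          fin_cases i <;> fin_cases j <;> simp [sy, dg] <;> ring
        rw [ed]
        simp only [Fin.sum_univ_two, sy, Matrix.of_apply, Matrix.cons_val', Matrix.cons_val_zero,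
          Matrix.cons_val_one, Matrix.cons_val_fin_one, Complex.normSq_ofReal]
        have h1 : (1 - e / 2) ≠ 0 := by linarith
        have h1' : (2 - e) ≠ 0 := by linarith
        have h2 : e ≠ 0 := he.ne'
        field_simp
        ring
      have DN : stdDiv fsq (mp outN (dg ![1 - e, 3 * e / 4, e / 4]))
          (mp outN (dg ![1 - e, e / 2, e / 2])) = (e / 8) ^ 2 / (1 - e / 2) := by
        rw [hN1, hN2]
        have hpos : ∀ i, 0 < (![(e / 2 + e / 2) / 2, (1 - (e / 2 + e / 2) / 2 + (e / 2 - e / 2) / 4) / 2,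
            (1 - (e / 2 + e / 2) / 2 - (e / 2 - e / 2) / 4) / 2] : Fin 3 → ℝ) i := by
          intro i
          fin_cases i
          · show 0 < (e / 2 + e / 2) / 2; linarith
          · show 0 < (1 - (e / 2 + e / 2) / 2 + (e / 2 - e / 2) / 4) / 2; linarith
          · show 0 < (1 - (e / 2 + e / 2) / 2 - (e / 2 - e / 2) / 4) / 2; linarith
        have hH : (dg ![(3 * e / 4 + e / 4) / 2, (1 - (3 * e / 4 + e / 4) / 2 + (3 * e / 4 - e / 4) / 4) / 2,
            (1 - (3 * e / 4 + e / 4) / 2 - (3 * e / 4 - e / 4) / 4) / 2]).IsHermitian :=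
          (dg_posSemidef (n := 3) fun i => by
            fin_cases i
            · show 0 ≤ (3 * e / 4 + e / 4) / 2; linarith
            · show 0 ≤ (1 - (3 * e / 4 + e / 4) / 2 + (3 * e / 4 - e / 4) / 4) / 2; linarith
            · show 0 ≤ (1 - (3 * e / 4 + e / 4) / 2 - (3 * e / 4 - e / 4) / 4) / 2; linarith).1
        unfold fsq
        rw [stdDiv_sq_dg hH hpos]
        have ed : dg ![(3 * e / 4 + e / 4) / 2, (1 - (3 * e / 4 + e / 4) / 2 + (3 * e / 4 - e / 4) / 4) / 2,
            (1 - (3 * e / 4 + e / 4) / 2 - (3 * e / 4 - e / 4) / 4) / 2] -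
            dg ![(e / 2 + e / 2) / 2, (1 - (e / 2 + e / 2) / 2 + (e / 2 - e / 2) / 4) / 2,
            (1 - (e / 2 + e / 2) / 2 - (e / 2 - e / 2) / 4) / 2] = dg ![0, e / 16, - (e / 16)] := by
          ext i j
          fin_cases i <;> fin_cases j <;> simp [dg] <;> ring
        rw [ed]
        simp [Fin.sum_univ_three, dg, Complex.normSq_ofReal]
        have h1 : (1 - e / 2) ≠ 0 := by linarith
        have h1' : (2 - e) ≠ 0 := by linarith
        have h2 : e ≠ 0 := he.ne'
        field_simp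
        ring
      have h1 : (0 : ℝ) < 1 - e / 2 := by linarith
      refine ⟨dg ![1 - e, 3 * e / 4, e / 4], dg ![1 - e, e / 2, e / 2], hs1, hs2, ?_, ?_, ?_, ?_⟩
      · intro h
        have h2 := congrFun (congrFun h 1) 1
        have h3 := congrArg Complex.re h2
        rw [r1, r3] at h3
        linarith
      · unfold SameSupp
        rw [range_top (dg_posDef hq), range_top (dg_posDef hq')]
      · rw [DM]
        positivity
      · rw [DM, DN]
        congr 1
        have h2 : (1 - e / 2) ≠ 0 := h1.ne'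
        have h3 : e ≠ 0 := he.ne'
        generalize 1 - e / 2 = c at h2
        field_simp
    by_contra hcon
    rw [not_le] at hcon
    obtain ⟨q, hq0, hq1⟩ := EReal.lt_iff_exists_real_btwn.1 hcon
    have hq0' : 0 < q := by exact_mod_cast hq0
    have h1 := key (min q (1 / 2)) (by positivity) (by
      have := min_le_right q (1 / 2); linarith)
    have h2 : (((min q (1 / 2)) / 2 : ℝ) : EReal) ≤ (q : EReal) := by
      rw [EReal.coe_le_coe_iff]
      have := min_le_left q (1 / 2)
      linarith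
    exact absurd (h1.trans h2) (not_le.2 hq1)
  · unfold etaStd
    apply le_sInf
    rintro r ⟨ρ, γ, hρ, hγ, -, -, -, rfl⟩
    have hM : (mp outM ρ).IsHermitian := by
      obtain ⟨h1, -, -⟩ := vals hρ.1.1 (s := 1) (by rw [hρ.2]; simp)
      rw [h1]
      ext i j
      fin_cases i <;> fin_cases j <;> simp [sy, conjTranspose_apply]
    have hN : (mp outN ρ).IsHermitian := by
      obtain ⟨-, h1, -⟩ := vals hρ.1.1 (s := 1) (by rw [hρ.2]; simp)
      rw [h1]
      ext i j
      by_cases hij : i = j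
      · subst hij
        simp [dg, conjTranspose_apply]
      · simp [dg, conjTranspose_apply, hij, Ne.symm hij]
    have h1 : 0 ≤ stdDiv fsq (mp outN ρ) (mp outN γ) := stdDiv_sq_nonneg hN
    have h2 : 0 ≤ stdDiv fsq (mp outM ρ) (mp outM γ) := stdDiv_sq_nonneg hM
    exact_mod_cast div_nonneg h1 h2

end Pool.Agent.Work.MP_7112d2_mp
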