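import Pool.Agent.Work.MP_7112d2_mp.Defs

set_option autoImplicit false

namespace Pool.Agent.Work.MP_7112d2_mp

open Matrix
open scoped Kronecker ComplexOrder

variable {n : Type*} [Fintype n] [DecidableEq n]

theorem spec_finite {A : Matrix n n ℂ} (hA : A.IsHermitian) : (spectrum ℝ A).Finite := by
  rw [hA.spectrum_real_eq_range_eigenvalues]
  exact Set.finite_range _

theorem contOn_spec {A : Matrix n n ℂ} (hA : A.IsHermitian) (f : ℝ → ℝ) :
    ContinuousOn f (spectrum ℝ A) := (spec_finite hA).continuousOn f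

theorem spec_nonneg {A : Matrix n n ℂ} (hA : A.PosSemidef) {x : ℝ} (hx : x ∈ spectrum ℝ A) :
    0 ≤ x := by
  rw [hA.1.spectrum_real_eq_range_eigenvalues] at hx
  obtain ⟨i, rfl⟩ := hx
  exact hA.eigenvalues_nonneg i

theorem spec_pos {A : Matrix n n ℂ} (hA : A.PosDef) {x : ℝ} (hx : x ∈ spectrum ℝ A) :
    0 < x := by
  rw [hA.1.spectrum_real_eq_range_eigenvalues] at hx
  obtain ⟨i, rfl⟩ := hx
  exact hA.eigenvalues_pos i

/-- the function `(x - 1)^2` of a Hermitian matrix -/
theorem cfc_sq {A : Matrix n n ℂ} (hA : A.IsHermitian) :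
    cfc (fun x : ℝ => (x - 1) ^ 2) A = (A - 1) ^ 2 := by
  have hA' : IsSelfAdjoint A := hA
  rw [cfc_pow (fun x : ℝ => x - 1) 2 A (contOn_spec hA _),
    cfc_sub (fun x : ℝ => x) (fun _ => (1 : ℝ)) A (contOn_spec hA _) (contOn_spec hA _),
    cfc_id' ℝ A, cfc_const_one ℝ A]

/-- functional calculus with a function equal to `2/(1+x)` on the spectrum -/
theorem cfc_kappa_mul {A : Matrix n n ℂ} (hA : A.PosDef) {κ : ℝ → ℝ}
    (hκ : ∀ x : ℝ, 0 < x → κ x = 2 / (1 + x)) :
    cfc κ A * (1 + A) = (2 : ℝ) • (1 : Matrix n n ℂ) := by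
  have hA' : IsSelfAdjoint A := hA.1
  have h1 : (1 + A) = cfc (fun x : ℝ => 1 + x) A := by
    rw [cfc_add A (fun _ => (1 : ℝ)) (fun x : ℝ => x) (contOn_spec hA.1 _) (contOn_spec hA.1 _),
      cfc_id' ℝ A, cfc_const_one ℝ A]
  rw [h1, ← cfc_mul κ (fun x : ℝ => 1 + x) A (contOn_spec hA.1 _) (contOn_spec hA.1 _)]
  have h2 : (spectrum ℝ A).EqOn (fun x => κ x * (1 + x)) (fun _ => (2 : ℝ)) := by
    intro x hx
    have hx0 := spec_pos hA hx
    simp only [hκ x hx0]
    field_simp
  rw [cfc_congr h2, cfc_const (2 : ℝ) A, Algebra.algebraMap_eq_smul_one]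

/-- the functional calculus of a real diagonal matrix -/
theorem cfc_diag (f : ℝ → ℝ) (d : n → ℝ) :
    cfc f (diagonal fun i => (d i : ℂ)) = diagonal fun i => (f (d i) : ℂ) := by
  classical
  set D : Matrix n n ℂ := diagonal fun i => (d i : ℂ) with hD
  have hDh : D.IsHermitian := by
    rw [hD]
    ext i j
    simp only [conjTranspose_apply, diagonal_apply]
    by_cases h : i = j
    · subst h; simp
    · simp [h, Ne.symm h]
  have hD' : IsSelfAdjoint D := hDh
  let s : Finset ℝ := Finset.univ.image d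
  let p : Polynomial ℝ := Lagrange.interpolate s id f
  have hp : ∀ i, p.eval (d i) = f (d i) := by
    intro i
    have := Lagrange.eval_interpolate_at_node (s := s) (v := id) f (i := d i)
      (Function.injective_id.injOn) (by simp [s])
    exact this
  have hspec : ∀ x ∈ spectrum ℝ D, ∃ i, x = d i := by
    intro x hx
    have hx2 : ((x : ℝ) : ℂ) ∈ spectrum ℂ D := by
      have := (spectrum.algebraMap_mem_iff (S := ℂ) (R := ℝ) (a := D) (r := x)).2 hx
      simpa using this
    rw [hD, spectrum_diagonal] at hx2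
    obtain ⟨i, hi⟩ := hx2
    refine ⟨i, ?_⟩
    have hi' : ((d i : ℝ) : ℂ) = (x : ℂ) := hi
    exact (Complex.ofReal_injective hi').symm
  have h1 : (spectrum ℝ D).EqOn f p.eval := by
    intro x hx
    obtain ⟨i, rfl⟩ := hspec x hx
    exact (hp i).symm
  rw [cfc_congr h1, cfc_polynomial p D hD']
  have key : ∀ q : Polynomial ℝ, Polynomial.aeval D q = diagonal fun i => ((q.eval (d i) : ℝ) : ℂ) := by
    intro q
    induction q using Polynomial.induction_on' with
    | add p q hp hq =>
      rw [map_add, hp, hq, diagonal_add]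
      congr 1
      ext i
      simp
    | monomial k a =>
      rw [Polynomial.aeval_monomial, hD, diagonal_pow, algebraMap_eq_diagonal, diagonal_mul_diagonal]
      congr 1
      ext i
      simp
  rw [key p]
  congr 1
  ext i
  rw [hp i]

end Pool.Agent.Work.MP_7112d2_mp
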