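import Pool.Agent.Work.MP_7112d2_mp.Conv

set_option autoImplicit false

namespace Pool.Agent.Work.MP_7112d2_mp

open Matrix
open scoped Kronecker ComplexOrder MatrixOrder

section general

variable {m : Type*} [Fintype m] [DecidableEq m]

theorem cfc_isHermitian {A : Matrix m m ℂ} (f : ℝ → ℝ) : (cfc f A).IsHermitian :=
  cfc_predicate f A

theorem cfc_posSemidef {A : Matrix m m ℂ} {f : ℝ → ℝ}
    (hf : ∀ x ∈ spectrum ℝ A, 0 ≤ f x) : (cfc f A).PosSemidef := by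
  rw [← Matrix.nonneg_iff_posSemidef]
  exact cfc_nonneg hf

omit [DecidableEq m] in
theorem re_quad_nonneg {A : Matrix m m ℂ} (hA : A.PosSemidef) (v : m → ℂ) :
    0 ≤ (star v ⬝ᵥ (A *ᵥ v)).re := by
  have := hA.dotProduct_mulVec_nonneg v
  exact (Complex.le_def.1 this).1

end general

variable {n : ℕ}

theorem ginv_posSemidef {σ : Mat n} (hσ : σ.PosSemidef) : (ginv σ).PosSemidef :=
  cfc_posSemidef fun _ hx => inv_nonneg.2 (spec_nonneg hσ hx)

theorem LR_posSemidef {A B : Mat n} (hA : A.PosSemidef) (hB : B.PosSemidef) :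
    (LR A B).PosSemidef := hB.transpose.kronecker hA

theorem LR_posDef {A B : Mat n} (hA : A.PosDef) (hB : B.PosDef) :
    (LR A B).PosDef := hB.transpose.kronecker hA

theorem LR_mul (A B C D : Mat n) : LR A B * LR C D = LR (A * C) (D * B) := by
  unfold LR
  rw [← mul_kronecker_mul, transpose_mul]

theorem riemSq_eq (κ : ℝ → ℝ) (σ Y : Mat n) :
    riemSq κ σ Y = (star (vec Y) ⬝ᵥ ((cfc κ (LR σ (ginv σ)) * LR 1 (ginv σ)) *ᵥ vec Y)).re := by
  unfold riemSq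
  rw [← mulVec_mulVec, LR_mulVec_vec, one_mul]

theorem sqrt_mul_sqrt {σ : Mat n} (hσ : σ.PosSemidef) :
    msqrt σ * msqrt σ = σ := by
  unfold msqrt
  have hσ' : IsSelfAdjoint σ := hσ.1
  rw [← cfc_mul Real.sqrt Real.sqrt σ (contOn_spec hσ.1 _) (contOn_spec hσ.1 _)]
  have h2 : (spectrum ℝ σ).EqOn (fun x => Real.sqrt x * Real.sqrt x) (fun x => x) := by
    intro x hx
    exact Real.mul_self_sqrt (spec_nonneg hσ hx)
  rw [cfc_congr h2, cfc_id' ℝ σ]

/-- the matrix of `κ(L R⁻¹) R⁻¹` is positive semidefinite -/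
theorem kappaOp_posSemidef {g : ℝ → ℝ} (hg : ∀ x, 0 ≤ x → 0 ≤ g x) {σ : Mat n}
    (hσ : σ.PosSemidef) : (cfc g (LR σ (ginv σ)) * LR 1 (ginv σ)).PosSemidef := by
  set T := LR σ (ginv σ) with hT
  set S := LR 1 (msqrt (ginv σ)) with hS
  have hTps : T.PosSemidef := LR_posSemidef hσ (ginv_posSemidef hσ)
  have hgps := ginv_posSemidef hσ
  have hSh : Sᴴ = S := by
    have h1 : (msqrt (ginv σ)).IsHermitian := cfc_isHermitian _
    rw [hS]
    unfold LR
    rw [conjTranspose_kronecker, conjTranspose_one]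
    congr 1
    exact h1.transpose
  have hSS : LR 1 (ginv σ) = S * S := by
    rw [hS, LR_mul, one_mul, sqrt_mul_sqrt hgps]
  have hc : Commute T S := by
    have h1 : Commute (ginv σ) (msqrt (ginv σ)) := by
      exact ((Commute.refl (ginv σ)).cfc_real Real.sqrt).symm
    show T * S = S * T
    rw [hT, hS, LR_mul, LR_mul, mul_one, one_mul]
    congr 1
    exact h1.symm
  have hc2 : Commute (cfc g T) S := hc.cfc_real g
  rw [hSS, ← mul_assoc, hc2.eq]
  have h3 : (cfc g T).PosSemidef := cfc_posSemidef fun x hx => hg x (spec_nonneg hTps hx)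
  have h4 := h3.conjTranspose_mul_mul_same S
  rwa [hSh] at h4

theorem riemSq_nonneg {g : ℝ → ℝ} (hg : ∀ x, 0 ≤ x → 0 ≤ g x) {σ : Mat n}
    (hσ : σ.PosSemidef) (Y : Mat n) : 0 ≤ riemSq g σ Y := by
  rw [riemSq_eq]
  exact re_quad_nonneg (kappaOp_posSemidef hg hσ) _

theorem riemSq_mono {g₁ g₂ : ℝ → ℝ} (hg : ∀ x, 0 ≤ x → g₁ x ≤ g₂ x) {σ : Mat n}
    (hσ : σ.PosSemidef) (Y : Mat n) : riemSq g₁ σ Y ≤ riemSq g₂ σ Y := by
  have h := riemSq_nonneg (g := fun x => g₂ x - g₁ x) (fun x hx => sub_nonneg.2 (hg x hx)) hσ Y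
  have hT : (LR σ (ginv σ)).IsHermitian := (LR_posSemidef hσ (ginv_posSemidef hσ)).1
  unfold riemSq at h ⊢
  rw [cfc_sub g₂ g₁ _ (contOn_spec hT _) (contOn_spec hT _), sub_mulVec, dotProduct_sub,
    Complex.sub_re] at h
  linarith

theorem riemSq_smul (C : ℝ) (g : ℝ → ℝ) {σ : Mat n}
    (hσ : σ.PosSemidef) (Y : Mat n) : riemSq (fun x => C * g x) σ Y = C * riemSq g σ Y := by
  have hT : (LR σ (ginv σ)).IsHermitian := (LR_posSemidef hσ (ginv_posSemidef hσ)).1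
  unfold riemSq
  rw [cfc_const_mul C g _ (contOn_spec hT _), smul_mulVec, dotProduct_smul]
  simp

/-- the generalised inverse of a positive definite matrix is its inverse -/
theorem ginv_mul {σ : Mat n} (hσ : σ.PosDef) : σ * ginv σ = 1 := by
  unfold ginv
  have hσ' : IsSelfAdjoint σ := hσ.1
  conv_lhs => rw [← cfc_id' ℝ σ, cfc_id' ℝ σ]
  have h1 : σ = cfc (fun x : ℝ => x) σ := (cfc_id' ℝ σ).symm
  conv_lhs => arg 1; rw [h1]
  rw [← cfc_mul (fun x : ℝ => x) (fun x => x⁻¹) σ (contOn_spec hσ.1 _) (contOn_spec hσ.1 _)]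
  have h2 : (spectrum ℝ σ).EqOn (fun x => x * x⁻¹) (fun _ => 1) := by
    intro x hx
    exact mul_inv_cancel₀ (spec_pos hσ hx).ne'
  rw [cfc_congr h2, cfc_const_one ℝ σ]

theorem ginv_posDef {σ : Mat n} (hσ : σ.PosDef) : (ginv σ).PosDef := by
  have h := ginv_mul hσ
  have : ginv σ = σ⁻¹ := (inv_eq_right_inv h).symm
  rw [this]
  exact hσ.inv

/-- For positive definite `σ` and `κ(x) = 2/(1+x)` the semi-norm is `⟨Y, G⟩` with
`σ G + G σ = 2 Y`. -/
theorem riemSq_sld {κ : ℝ → ℝ} (hκ : ∀ x : ℝ, 0 < x → κ x = 2 / (1 + x)) {σ : Mat n}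
    (hσ : σ.PosDef) {Y G : Mat n} (hG : σ * G + G * σ = (2 : ℝ) • Y) :
    riemSq κ σ Y = (star (vec Y) ⬝ᵥ vec G).re := by
  unfold riemSq
  have hT : (LR σ (ginv σ)).PosDef := LR_posDef hσ (ginv_posDef hσ)
  have h1 : (1 + LR σ (ginv σ)).PosDef := PosDef.one.add_posSemidef hT.posSemidef
  have hu : IsUnit (1 + LR σ (ginv σ)).det := (Matrix.isUnit_iff_isUnit_det _).1 h1.isUnit
  rw [cfc_kappa hT hκ]
  have h2 : vec (Y * ginv σ) = (1 / 2 : ℝ) • ((1 + LR σ (ginv σ)) *ᵥ vec G) := by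
    rw [add_mulVec, one_mulVec, LR_mulVec_vec]
    have h3 : G = G * σ * ginv σ := by rw [mul_assoc, ginv_mul hσ, mul_one]
    have h4 : Y * ginv σ = (1 / 2 : ℝ) • (G + σ * G * ginv σ) := by
      have h5 : G + σ * G * ginv σ = (σ * G + G * σ) * ginv σ := by
        rw [add_mul, ← h3, add_comm]
      rw [h5, hG, smul_mul_assoc, smul_smul]
      norm_num
    rw [h4, vec_smul, vec_add]
  rw [h2, mulVec_smul, smul_mulVec, mulVec_mulVec, nonsing_inv_mul _ hu, one_mulVec, smul_smul]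
  norm_num

end Pool.Agent.Work.MP_7112d2_mp
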