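import Pool.Agent.Work.MP_7112d2_mp.Diag

set_option autoImplicit false

namespace Pool.Agent.Work.MP_7112d2_mp

open Matrix
open scoped Kronecker ComplexOrder MatrixOrder

variable {n : ℕ}

theorem LR_isHermitian {A B : Mat n} (hA : A.IsHermitian) (hB : B.IsHermitian) :
    (LR A B).IsHermitian := by
  unfold LR
  unfold Matrix.IsHermitian
  rw [conjTranspose_kronecker, hA.eq, hB.transpose.eq]

theorem stdDiv_sq {ρ γ : Mat n} (hρ : ρ.IsHermitian) :
    stdDiv (fun x : ℝ => (x - 1) ^ 2) ρ γ =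
      (star (vec (ρ * msqrt γ * ginv γ - msqrt γ)) ⬝ᵥ
        vec (ρ * msqrt γ * ginv γ - msqrt γ)).re := by
  unfold stdDiv
  have hg : (ginv γ).IsHermitian := cfc_isHermitian _
  have hT : (LR ρ (ginv γ)).IsHermitian := LR_isHermitian hρ hg
  rw [cfc_sq hT, sq, ← mulVec_mulVec]
  have e : (LR ρ (ginv γ) - 1) *ᵥ vec (msqrt γ) = vec (ρ * msqrt γ * ginv γ - msqrt γ) := by
    rw [sub_mulVec, LR_mulVec_vec, one_mulVec, vec_sub]
  have hH : (LR ρ (ginv γ) - 1)ᴴ = LR ρ (ginv γ) - 1 := by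
    rw [conjTranspose_sub, hT.eq, conjTranspose_one]
  rw [e, dotProduct_mulVec]
  congr 2
  rw [← e, star_mulVec, hH]

theorem stdDiv_sq_nonneg {ρ γ : Mat n} (hρ : ρ.IsHermitian) :
    0 ≤ stdDiv (fun x : ℝ => (x - 1) ^ 2) ρ γ := by
  rw [stdDiv_sq hρ]
  exact (Complex.le_def.1 (dotProduct_star_self_nonneg _)).1

theorem stdDiv_sq_dg {ρ : Mat n} (hρ : ρ.IsHermitian) {g : Fin n → ℝ} (hg : ∀ i, 0 < g i) :
    stdDiv (fun x : ℝ => (x - 1) ^ 2) ρ (dg g) =
      ∑ j, ∑ i, (g j)⁻¹ * Complex.normSq ((ρ - dg g) i j) := by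
  rw [stdDiv_sq hρ]
  rw [dotProduct, Fintype.sum_prod_type, Complex.re_sum]
  refine Finset.sum_congr rfl fun j _ => ?_
  rw [Complex.re_sum]
  refine Finset.sum_congr rfl fun i _ => ?_
  rw [ginv_dg, msqrt_dg]
  have e : (ρ * dg (fun i => Real.sqrt (g i)) * dg (fun i => (g i)⁻¹) -
      dg (fun i => Real.sqrt (g i))) i j = ((Real.sqrt (g j) * (g j)⁻¹ : ℝ) : ℂ) * (ρ - dg g) i j := by
    have hs : ((Real.sqrt (g j) : ℝ) : ℂ) = (Real.sqrt (g j) : ℂ) * ((g j)⁻¹ : ℝ) * (g j : ℂ) := by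
      have : (g j : ℂ) ≠ 0 := by exact_mod_cast (hg j).ne'
      push_cast
      field_simp
    simp only [dg, Matrix.sub_apply, mul_diagonal, diagonal_apply]
    by_cases h : i = j
    · subst h
      simp only [if_true]
      push_cast
      rw [mul_sub]
      congr 1
      · ring
      · push_cast at hs
        exact hs
    · simp only [h, if_false]
      push_cast
      ring
  simp only [Pi.star_apply, vec, e]
  generalize (ρ - dg g) i j = c
  have h := Complex.normSq_eq_conj_mul_self (z := c)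
  have e2 : ∀ r : ℝ, star ((r : ℂ) * c) * ((r : ℂ) * c)
      = ((r ^ 2 * Complex.normSq c : ℝ) : ℂ) := by
    intro r
    rw [Complex.ofReal_mul, h]
    simp only [star_mul', Complex.star_def, Complex.conj_ofReal]
    push_cast
    ring
  rw [e2, Complex.ofReal_re]
  congr 1
  rw [mul_pow, Real.sq_sqrt (hg j).le]
  have := (hg j).ne'
  field_simp

end Pool.Agent.Work.MP_7112d2_mp
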